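import Pool.Agent.Lib.MP_3240be_co.S86.Ssl
import Pool.Agent.Lib.MP_3240be_co.SSL8.Amg

/-!
# MP_3240be_co: the base of helper8's SSL (TW systems) and `Ssl g` for all `g`
-/

set_option autoImplicit false

namespace MP3240SSL

/-- The TW system. -/
def twS {Y : Type} [Finite Y] (P : SimpleGraph Y) (M : ℕ) : Sys P where
  V := (MP3240S86.tw Y M).V
  M := (MP3240S86.tw Y M).M
  fV := (MP3240S86.tw Y M).fV
  fM := (MP3240S86.tw Y M).fM
  δ := (MP3240S86.tw Y M).δ
  part := (MP3240S86.tw Y M).part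
  hp := (MP3240S86.tw Y M).hpart
  lin := fun m m' h y y' h1 h2 => MP3240S86.tw_lin Y M m m' y y' h h1 h2

/-- The base of the induction. -/
theorem ssl_base (Y : Type) [Finite Y] (P : SimpleGraph Y) (n : ℕ) :
    ∃ Z : Sys P, Z.Rob n Set.univ := by
  classical
  have := Fintype.ofFinite Y
  refine ⟨twS P (MP3240Tw1.twM (Fintype.card Y) n), ?_⟩
  intro c _ b
  by_cases hK : Kbb n (twS P (MP3240Tw1.twM (Fintype.card Y) n)).Phi c b
  · exact Or.inl hK
  · right
    obtain ⟨m, hm⟩ := MP3240S86.tw_rob Y P n (fun x y => c x y = b) (by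
      rintro ⟨e, e', he, he', h⟩
      exact hK ⟨e, e', he, he', h⟩)
    refine ⟨m, fun y y' hy _ => ?_⟩
    have h1 := hm _ _ ⟨y, y', rfl, rfl, hy⟩
    cases b
    · exact Bool.eq_true_of_not_eq_false h1
    · exact Bool.eq_false_of_not_eq_true h1

/-- Finite sparse systems exist. -/
theorem ssl_all (g : ℕ) : Ssl g := ssl_of_base ssl_base g

end MP3240SSL
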