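import Pool.Agent.Lib.MP_3240be_co.H80t.Tw1

/-!
# MP_3240be_co: finite sparse systems (SSL)

Paper: finding 4819 (helper70).  A system for the pattern `P` (a graph on `Y`) consists of bodies
`δ m : Y → V`, copies of `P`.  For all `P`, `n`, `g` there is a finite system such that

* `Lin`: two bodies share at most one vertex;
* `Spa g`: every `g` bodies are in a tree-like structure `TD`, glued from bodies and bipartite
  graphs along vertices and edges;
* `Rob n`: every relation `R` has a `K_{n,n}` inside the graph of the system or misses all edges of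
  some body.
-/

set_option autoImplicit false

namespace MP3240S86

/-- A finite system of bodies with parts `Y`. -/
structure Sys (Y : Type) where
  V : Type
  M : Type
  fV : Finite V
  fM : Finite M
  δ : M → Y → V
  part : V → Y
  hpart : ∀ m y, part (δ m y) = y

variable {Y : Type}

namespace Sys

theorem inj (S : Sys Y) (m : S.M) : Function.Injective (S.δ m) := fun y z h => by
  rw [← S.hpart m y, ← S.hpart m z, h]

/-- The edges of the body `m`. -/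
def bd (S : Sys Y) (P : SimpleGraph Y) (m : S.M) (x y : S.V) : Prop :=
  ∃ t t', x = S.δ m t ∧ y = S.δ m t' ∧ P.Adj t t'

/-- The graph of the system. -/
def G (S : Sys Y) (P : SimpleGraph Y) : SimpleGraph S.V where
  Adj x y := ∃ m, S.bd P m x y
  symm := ⟨fun _ _ ⟨m, t, t', h1, h2, h3⟩ => ⟨m, t', t, h2, h1, h3.symm⟩⟩
  loopless := ⟨fun _ ⟨m, _, _, h1, h2, h3⟩ => h3.ne (S.inj m (h1.symm.trans h2))⟩

/-- Two bodies share at most one vertex. -/
def Lin (S : Sys Y) : Prop :=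
  ∀ m m' y z, m ≠ m' → S.δ m y = S.δ m' y → S.δ m z = S.δ m' z → y = z

end Sys

/-- Tree-like structures: `S` = bodies, `Γ` = edges, `A` = vertices. -/
inductive TD (Q : Sys Y) (P : SimpleGraph Y) :
    Set Q.M → (Q.V → Q.V → Prop) → Set Q.V → Prop
  | body (m : Q.M) : TD Q P {m} (Q.bd P m) (Set.range (Q.δ m))
  | bip (Γ : Q.V → Q.V → Prop) (A : Set Q.V) (κ : Q.V → Bool)
      (hκ : ∀ x y, Γ x y → κ x ≠ κ y) (hA : ∀ x y, Γ x y → x ∈ A ∧ y ∈ A)
      (hs : ∀ x y, Γ x y → Γ y x) : TD Q P ∅ Γ A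
  | glue (S₁ S₂ : Set Q.M) (Γ₁ Γ₂ : Q.V → Q.V → Prop) (A₁ A₂ : Set Q.V) (a b : Q.V)
      (h₁ : TD Q P S₁ Γ₁ A₁) (h₂ : TD Q P S₂ Γ₂ A₂) (hd : ∀ m, m ∈ S₁ → m ∉ S₂)
      (hA : ∀ x, x ∈ A₁ → x ∈ A₂ → x = a ∨ x = b) (hab : a = b ∨ (Γ₁ a b ∧ Γ₂ a b)) :
      TD Q P (S₁ ∪ S₂) (fun x y => Γ₁ x y ∨ Γ₂ x y) (A₁ ∪ A₂)

variable {P : SimpleGraph Y} {Q : Sys Y}

theorem TD.supp {S : Set Q.M} {Γ : Q.V → Q.V → Prop} {A : Set Q.V} (h : TD Q P S Γ A) :
    ∀ x y, Γ x y → x ∈ A ∧ y ∈ A := by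
  induction h with
  | body m =>
    rintro x y ⟨t, t', h1, h2, -⟩
    exact ⟨⟨t, h1.symm⟩, ⟨t', h2.symm⟩⟩
  | bip Γ A κ hκ hA hs => exact hA
  | glue S₁ S₂ Γ₁ Γ₂ A₁ A₂ a b h₁ h₂ hd hA hab i₁ i₂ =>
    rintro x y (h | h)
    · exact ⟨Or.inl (i₁ x y h).1, Or.inl (i₁ x y h).2⟩
    · exact ⟨Or.inr (i₂ x y h).1, Or.inr (i₂ x y h).2⟩

theorem TD.symm {S : Set Q.M} {Γ : Q.V → Q.V → Prop} {A : Set Q.V} (h : TD Q P S Γ A) :
    ∀ x y, Γ x y → Γ y x := by
  induction h with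
  | body m =>
    rintro x y ⟨t, t', h1, h2, h3⟩
    exact ⟨t', t, h2, h1, h3.symm⟩
  | bip Γ A κ hκ hA hs => exact hs
  | glue S₁ S₂ Γ₁ Γ₂ A₁ A₂ a b h₁ h₂ hd hA hab i₁ i₂ =>
    rintro x y (h | h)
    · exact Or.inl (i₁ x y h)
    · exact Or.inr (i₂ x y h)

theorem TD.bodies {S : Set Q.M} {Γ : Q.V → Q.V → Prop} {A : Set Q.V} (h : TD Q P S Γ A) :
    ∀ m ∈ S, (∀ x y, Q.bd P m x y → Γ x y) ∧ ∀ t, Q.δ m t ∈ A := by
  induction h with
  | body m =>
    rintro m' rfl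
    exact ⟨fun x y h => h, fun t => ⟨t, rfl⟩⟩
  | bip Γ A κ hκ hA hs =>
    rintro m hm
    exact absurd hm (Set.notMem_empty m)
  | glue S₁ S₂ Γ₁ Γ₂ A₁ A₂ a b h₁ h₂ hd hA hab i₁ i₂ =>
    rintro m (h | h)
    · exact ⟨fun x y h' => Or.inl ((i₁ m h).1 x y h'), fun t => Or.inl ((i₁ m h).2 t)⟩
    · exact ⟨fun x y h' => Or.inr ((i₂ m h).1 x y h'), fun t => Or.inr ((i₂ m h).2 t)⟩

/-- Every `g` bodies are in a tree-like structure. -/
def Spa (Q : Sys Y) (P : SimpleGraph Y) (g : ℕ) : Prop :=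
  ∀ C : Finset Q.M, C.card ≤ g → ∃ S Γ A, TD Q P S Γ A ∧ ∀ m ∈ C, m ∈ S

/-- A `K_{n,n}` in `G` of edges in `R`. -/
def KnnR {V : Type} (G R : V → V → Prop) (n : ℕ) : Prop :=
  ∃ e e' : Fin n → V, Function.Injective e ∧ Function.Injective e' ∧
    ∀ i j, G (e i) (e' j) ∧ R (e i) (e' j)

/-- Every relation has a `K_{n,n}` or misses all edges of types in `E` of some body. -/
def RobE (Q : Sys Y) (P : SimpleGraph Y) (n : ℕ) (E : Finset (Y × Y)) : Prop :=
  ∀ R : Q.V → Q.V → Prop, ¬ KnnR (Q.G P).Adj R n → ∃ m, ∀ p ∈ E, P.Adj p.1 p.2 →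
    ¬ R (Q.δ m p.1) (Q.δ m p.2) ∧ ¬ R (Q.δ m p.2) (Q.δ m p.1)

/-- Every relation has a `K_{n,n}` or misses all edges of some body. -/
def Rob (Q : Sys Y) (P : SimpleGraph Y) (n : ℕ) : Prop :=
  ∀ R : Q.V → Q.V → Prop, ¬ KnnR (Q.G P).Adj R n → ∃ m, ∀ x y, Q.bd P m x y → ¬ R x y

/-! ## The amalgam -/

/-- Maps between systems transport tree-like structures. -/
theorem TD.map {Q' : Sys Y} (ι : Q.V → Q'.V) (hι : Function.Injective ι) (μ : Q.M → Q'.M)
    (hμ : Function.Injective μ) (hδ : ∀ m y, Q'.δ (μ m) y = ι (Q.δ m y)) {S : Set Q.M}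
    {Γ : Q.V → Q.V → Prop} {A : Set Q.V} (h : TD Q P S Γ A) :
    TD Q' P (μ '' S) (fun x y => ∃ x' y', x = ι x' ∧ y = ι y' ∧ Γ x' y') (ι '' A) := by
  induction h with
  | body m =>
    have h1 : (μ '' {m} : Set Q'.M) = {μ m} := Set.image_singleton
    have h2 : (fun x y => ∃ x' y', x = ι x' ∧ y = ι y' ∧ Q.bd P m x' y') = Q'.bd P (μ m) := by
      funext x y
      apply propext
      constructor
      · rintro ⟨x', y', rfl, rfl, t, t', rfl, rfl, h⟩
        exact ⟨t, t', (hδ m t).symm, (hδ m t').symm, h⟩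
      · rintro ⟨t, t', rfl, rfl, h⟩
        exact ⟨_, _, hδ m t, hδ m t', t, t', rfl, rfl, h⟩
    have h3 : (ι '' Set.range (Q.δ m)) = Set.range (Q'.δ (μ m)) := by
      ext x
      constructor
      · rintro ⟨_, ⟨t, rfl⟩, rfl⟩
        exact ⟨t, hδ m t⟩
      · rintro ⟨t, rfl⟩
        exact ⟨_, ⟨t, rfl⟩, (hδ m t).symm⟩
    rw [h1, h2, h3]
    exact TD.body _
  | bip Γ A κ hκ hA hs =>
    classical
    rw [Set.image_empty]
    refine TD.bip _ _ (fun x => if h : ∃ x', x = ι x' then κ h.choose else true) ?_ ?_ ?_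
    · rintro x y ⟨x', y', rfl, rfl, h⟩
      have e1 : ∃ x'', ι x' = ι x'' := ⟨x', rfl⟩
      have e2 : ∃ y'', ι y' = ι y'' := ⟨y', rfl⟩
      have e3 : e1.choose = x' := (hι e1.choose_spec).symm
      have e4 : e2.choose = y' := (hι e2.choose_spec).symm
      simp only [dif_pos e1, dif_pos e2, e3, e4]
      exact hκ _ _ h
    · rintro x y ⟨x', y', rfl, rfl, h⟩
      exact ⟨⟨x', (hA _ _ h).1, rfl⟩, ⟨y', (hA _ _ h).2, rfl⟩⟩
    · rintro x y ⟨x', y', rfl, rfl, h⟩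
      exact ⟨y', x', rfl, rfl, hs _ _ h⟩
  | glue S₁ S₂ Γ₁ Γ₂ A₁ A₂ a b h₁ h₂ hd hA hab i₁ i₂ =>
    have h2 : (fun x y => ∃ x' y', x = ι x' ∧ y = ι y' ∧ (Γ₁ x' y' ∨ Γ₂ x' y')) =
        fun x y => (∃ x' y', x = ι x' ∧ y = ι y' ∧ Γ₁ x' y') ∨
          ∃ x' y', x = ι x' ∧ y = ι y' ∧ Γ₂ x' y' := by
      funext x y
      apply propext
      constructor
      · rintro ⟨x', y', e1, e2, h | h⟩
        · exact Or.inl ⟨x', y', e1, e2, h⟩
        · exact Or.inr ⟨x', y', e1, e2, h⟩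
      · rintro (⟨x', y', e1, e2, h⟩ | ⟨x', y', e1, e2, h⟩)
        · exact ⟨x', y', e1, e2, Or.inl h⟩
        · exact ⟨x', y', e1, e2, Or.inr h⟩
    rw [Set.image_union, Set.image_union, h2]
    refine TD.glue _ _ _ _ _ _ (ι a) (ι b) i₁ i₂ ?_ ?_ ?_
    · rintro _ ⟨m, hm, rfl⟩ ⟨m', hm', h⟩
      rw [hμ h] at hm'
      exact hd m hm hm'
    · rintro _ ⟨x, hx, rfl⟩ ⟨x', hx', h⟩
      rw [hι h] at hx'
      rcases hA x hx hx' with rfl | rfl
      · exact Or.inl rfl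
      · exact Or.inr rfl
    · rcases hab with rfl | ⟨h, h'⟩
      · exact Or.inl rfl
      · exact Or.inr ⟨⟨a, b, rfl, rfl, h⟩, ⟨a, b, rfl, rfl, h'⟩⟩

section amalgam

variable (Q : Sys Y) (v w : Y)

/-- The vertices of the parts `v`, `w`. -/
abbrev Ye : Type := {x : Q.V // Q.part x = v ∨ Q.part x = w}

/-- The graph of the edges of type `v w`. -/
def Ge (hvw : v ≠ w) : SimpleGraph (Ye Q v w) where
  Adj x y := ∃ m, (x.1 = Q.δ m v ∧ y.1 = Q.δ m w) ∨ (x.1 = Q.δ m w ∧ y.1 = Q.δ m v)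
  symm := ⟨fun _ _ ⟨m, h⟩ => ⟨m, h.symm.imp (fun h => ⟨h.2, h.1⟩) (fun h => ⟨h.2, h.1⟩)⟩⟩
  loopless := ⟨by
    rintro x ⟨m, ⟨h1, h2⟩ | ⟨h1, h2⟩⟩
    · exact hvw (Q.inj m (h1.symm.trans h2))
    · exact hvw (Q.inj m (h2.symm.trans h1))⟩

variable (β : Sys (Ye Q v w))

/-- The vertex `x` of the copy `j` of `Q`. -/
noncomputable def ιA (j : β.M) (x : Q.V) :
    β.V ⊕ ({x : Q.V // ¬ (Q.part x = v ∨ Q.part x = w)} × β.M) := by
  classical
  exact if h : Q.part x = v ∨ Q.part x = w then .inl (β.δ j ⟨x, h⟩) else .inr (⟨x, h⟩, j)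

theorem ιA_pos (j : β.M) (x : Q.V) (h : Q.part x = v ∨ Q.part x = w) :
    ιA Q v w β j x = .inl (β.δ j ⟨x, h⟩) := by
  unfold ιA
  rw [dif_pos h]

theorem ιA_neg (j : β.M) (x : Q.V) (h : ¬ (Q.part x = v ∨ Q.part x = w)) :
    ιA Q v w β j x = .inr (⟨x, h⟩, j) := by
  unfold ιA
  rw [dif_neg h]

theorem ιA_inj (j : β.M) : Function.Injective (ιA Q v w β j) := by
  intro x y h
  by_cases hx : Q.part x = v ∨ Q.part x = w <;> by_cases hy : Q.part y = v ∨ Q.part y = w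
  · rw [ιA_pos _ _ _ _ _ _ hx, ιA_pos _ _ _ _ _ _ hy] at h
    have := β.inj j (Sum.inl_injective h)
    exact congrArg Subtype.val this
  · rw [ιA_pos _ _ _ _ _ _ hx, ιA_neg _ _ _ _ _ _ hy] at h
    exact absurd h Sum.inl_ne_inr
  · rw [ιA_neg _ _ _ _ _ _ hx, ιA_pos _ _ _ _ _ _ hy] at h
    exact absurd h.symm Sum.inl_ne_inr
  · rw [ιA_neg _ _ _ _ _ _ hx, ιA_neg _ _ _ _ _ _ hy] at h
    have := congrArg Prod.fst (Sum.inr_injective h)
    exact congrArg Subtype.val this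

/-- The amalgam: a copy of `Q` for every body of `β`, glued at the vertices of the parts
`v`, `w`. -/
noncomputable def Am : Sys Y where
  V := β.V ⊕ ({x : Q.V // ¬ (Q.part x = v ∨ Q.part x = w)} × β.M)
  M := Q.M × β.M
  fV := by
    have := Q.fV
    have := β.fV
    have := β.fM
    infer_instance
  fM := by
    have := Q.fM
    have := β.fM
    infer_instance
  δ := fun p y => ιA Q v w β p.2 (Q.δ p.1 y)
  part := fun z => match z with
    | .inl z => Q.part (β.part z).1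
    | .inr z => Q.part z.1.1
  hpart := by
    rintro ⟨m, j⟩ y
    by_cases h : Q.part (Q.δ m y) = v ∨ Q.part (Q.δ m y) = w
    · simp only [ιA_pos _ _ _ _ _ _ h, β.hpart, Q.hpart]
    · simp only [ιA_neg _ _ _ _ _ _ h, Q.hpart]

theorem Am_δ (p : (Am Q v w β).M) (y : Y) :
    (Am Q v w β).δ p y = ιA Q v w β p.2 (Q.δ p.1 y) := rfl

/-- The edges of a copy of `Q` are edges of the amalgam. -/
theorem Am_adj (P : SimpleGraph Y) (j : β.M) {x y : Q.V} (h : (Q.G P).Adj x y) :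
    ((Am Q v w β).G P).Adj (ιA Q v w β j x) (ιA Q v w β j y) := by
  obtain ⟨m, t, t', rfl, rfl, h⟩ := h
  exact ⟨(m, j), t, t', rfl, rfl, h⟩

/-- The edges of `β` are edges of the amalgam. -/
theorem Am_adj' (P : SimpleGraph Y) (hvw : P.Adj v w) {x y : β.V}
    (h : (β.G (Ge Q v w hvw.ne)).Adj x y) : ((Am Q v w β).G P).Adj (.inl x) (.inl y) := by
  obtain ⟨j, p, q, rfl, rfl, m, ⟨h1, h2⟩ | ⟨h1, h2⟩⟩ := h
  · refine ⟨(m, j), v, w, ?_, ?_, hvw⟩
    · rw [Am_δ, ← h1, ιA_pos _ _ _ _ _ _ p.2]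
    · rw [Am_δ, ← h2, ιA_pos _ _ _ _ _ _ q.2]
  · refine ⟨(m, j), w, v, ?_, ?_, hvw.symm⟩
    · rw [Am_δ, ← h1, ιA_pos _ _ _ _ _ _ p.2]
    · rw [Am_δ, ← h2, ιA_pos _ _ _ _ _ _ q.2]

theorem Am_lin (hQ : Q.Lin) (hβ : β.Lin) : (Am Q v w β).Lin := by
  rintro ⟨m, j⟩ ⟨m', j'⟩ y z hne h1 h2
  rw [Am_δ, Am_δ] at h1 h2
  dsimp only at h1 h2
  by_cases hj : j = j'
  · subst hj
    have hm : m ≠ m' := fun h => hne (by rw [h])
    exact hQ m m' y z hm (ιA_inj Q v w β j h1) (ιA_inj Q v w β j h2)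
  · have key : ∀ y, ιA Q v w β j (Q.δ m y) = ιA Q v w β j' (Q.δ m' y) →
        ∃ h : Q.part (Q.δ m y) = v ∨ Q.part (Q.δ m y) = w,
          β.δ j ⟨Q.δ m y, h⟩ = β.δ j' ⟨Q.δ m y, h⟩ := by
      intro y h1
      by_cases h : Q.part (Q.δ m y) = v ∨ Q.part (Q.δ m y) = w
      · have h' : Q.part (Q.δ m' y) = v ∨ Q.part (Q.δ m' y) = w := by
          rw [Q.hpart] at h ⊢
          exact h
        rw [ιA_pos _ _ _ _ _ _ h, ιA_pos _ _ _ _ _ _ h'] at h1
        have h3 := Sum.inl_injective h1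
        have h4 : (⟨Q.δ m y, h⟩ : Ye Q v w) = ⟨Q.δ m' y, h'⟩ := by
          rw [← β.hpart j ⟨Q.δ m y, h⟩, ← β.hpart j' ⟨Q.δ m' y, h'⟩, h3]
        refine ⟨h, ?_⟩
        rw [h3, h4]
      · have h' : ¬ (Q.part (Q.δ m' y) = v ∨ Q.part (Q.δ m' y) = w) := by
          rw [Q.hpart] at h ⊢
          exact h
        rw [ιA_neg _ _ _ _ _ _ h, ιA_neg _ _ _ _ _ _ h'] at h1
        exact absurd (congrArg Prod.snd (Sum.inr_injective h1)) hj
    obtain ⟨a1, a2⟩ := key y h1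
    obtain ⟨b1, b2⟩ := key z h2
    have := hβ j j' _ _ hj a2 b2
    exact Q.inj m (congrArg Subtype.val this)

theorem Am_rob (P : SimpleGraph Y) (hvw : P.Adj v w) (n : ℕ) (E : Finset (Y × Y))
    [DecidableEq Y] (hQ : RobE Q P n E) (hβ : Rob β (Ge Q v w hvw.ne) n) :
    RobE (Am Q v w β) P n (insert (v, w) E) := by
  intro R hR
  obtain ⟨j, hj⟩ := hβ (fun x y => R (.inl x) (.inl y)) (by
    rintro ⟨e, e', he, he', h⟩
    exact hR ⟨fun i => .inl (e i), fun i => .inl (e' i), fun a b h => he (Sum.inl_injective h),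
      fun a b h => he' (Sum.inl_injective h),
      fun a b => ⟨Am_adj' Q v w β P hvw (h a b).1, (h a b).2⟩⟩)
  obtain ⟨m, hm⟩ := hQ (fun x y => R (ιA Q v w β j x) (ιA Q v w β j y)) (by
    rintro ⟨e, e', he, he', h⟩
    exact hR ⟨fun i => ιA Q v w β j (e i), fun i => ιA Q v w β j (e' i),
      fun a b h => he (ιA_inj Q v w β j h), fun a b h => he' (ιA_inj Q v w β j h),
      fun a b => ⟨Am_adj Q v w β P j (h a b).1, (h a b).2⟩⟩)
  refine ⟨(m, j), ?_⟩
  intro p hp hP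
  rcases Finset.mem_insert.1 hp with rfl | hp
  · have h1 : Q.part (Q.δ m v) = v ∨ Q.part (Q.δ m v) = w := Or.inl (Q.hpart m v)
    have h2 : Q.part (Q.δ m w) = v ∨ Q.part (Q.δ m w) = w := Or.inr (Q.hpart m w)
    rw [Am_δ, Am_δ]
    dsimp only
    rw [ιA_pos _ _ _ _ _ _ h1, ιA_pos _ _ _ _ _ _ h2]
    exact ⟨hj _ _ ⟨⟨_, h1⟩, ⟨_, h2⟩, rfl, rfl, m, Or.inl ⟨rfl, rfl⟩⟩,
      hj _ _ ⟨⟨_, h2⟩, ⟨_, h1⟩, rfl, rfl, m, Or.inr ⟨rfl, rfl⟩⟩⟩
  · exact hm p hp hP

/-- The lifting claim. -/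
theorem Am_claim (P : SimpleGraph Y) (hvw : P.Adj v w) (g : ℕ) (hQ : Spa Q P (g + 1))
    (C : Finset (Q.M × β.M)) {J : Set β.M} {Γ : β.V → β.V → Prop} {A : Set β.V}
    (h : TD β (Ge Q v w hvw.ne) J Γ A) :
    ∀ E : Finset (β.V × β.V), (∀ p ∈ E, Γ p.1 p.2) → ∀ C' : Finset (Q.M × β.M),
      (∀ p, p ∈ C' ↔ p ∈ C ∧ p.2 ∈ J) → C'.card + E.card ≤ g + 1 →
      ∃ S Γ' A', TD (Am Q v w β) P S Γ' A' ∧ (∀ p ∈ C', p ∈ S) ∧ (∀ p ∈ S, p.2 ∈ J) ∧
        (∀ p ∈ E, Γ' (.inl p.1) (.inl p.2)) ∧ (∀ z, .inl z ∈ A' → z ∈ A) ∧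
        ∀ x j, .inr (x, j) ∈ A' → j ∈ J := by
  classical
  induction h with
  | body j =>
    intro E hE C' hC' hcard
    have hm : ∀ p : {p // p ∈ E}, ∃ m, ∃ q q' : Ye Q v w, p.1.1 = β.δ j q ∧ p.1.2 = β.δ j q' ∧
        ((q.1 = Q.δ m v ∧ q'.1 = Q.δ m w) ∨ (q.1 = Q.δ m w ∧ q'.1 = Q.δ m v)) := by
      rintro ⟨p, hp⟩
      obtain ⟨q, q', h1, h2, m, h3⟩ := hE p hp
      exact ⟨m, q, q', h1, h2, h3⟩
    choose μ hμ using hm
    obtain ⟨S, Γ, A, hTD, hS⟩ := hQ (C'.image Prod.fst ∪ E.attach.image μ) (by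
      have h1 : (C'.image Prod.fst).card ≤ C'.card := Finset.card_image_le
      have h2 : (E.attach.image μ).card ≤ E.attach.card := Finset.card_image_le
      rw [Finset.card_attach] at h2
      have h3 := Finset.card_union_le (C'.image Prod.fst) (E.attach.image μ)
      omega)
    have hmap := TD.map (Q := Q) (Q' := Am Q v w β) (ιA Q v w β j) (ιA_inj Q v w β j)
      (fun m => (m, j)) (fun m m' h => congrArg Prod.fst h) (fun m y => rfl) hTD
    refine ⟨_, _, _, hmap, ?_, ?_, ?_, ?_, ?_⟩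
    · intro p hp
      have h1 := ((hC' p).1 hp).2
      rw [Set.mem_singleton_iff] at h1
      exact ⟨p.1, hS _ (Finset.mem_union_left _ (Finset.mem_image_of_mem _ hp)),
        Prod.ext rfl h1.symm⟩
    · rintro _ ⟨m, hm, rfl⟩
      exact Set.mem_singleton j
    · intro p hp
      obtain ⟨q, q', h1, h2, h3⟩ := hμ ⟨p, hp⟩
      have h4 : μ ⟨p, hp⟩ ∈ S := hS _ (Finset.mem_union_right _
        (Finset.mem_image_of_mem _ (Finset.mem_attach _ _)))
      refine ⟨q.1, q'.1, ?_, ?_, ?_⟩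
      · rw [ιA_pos _ _ _ _ _ _ q.2, ← h1]
      · rw [ιA_pos _ _ _ _ _ _ q'.2, ← h2]
      · refine ((hTD.bodies _ h4).1 _ _ ?_)
        rcases h3 with ⟨h5, h6⟩ | ⟨h5, h6⟩
        · exact ⟨v, w, h5, h6, hvw⟩
        · exact ⟨w, v, h5, h6, hvw.symm⟩
    · rintro z ⟨x, hx, hz⟩
      by_cases h : Q.part x = v ∨ Q.part x = w
      · rw [ιA_pos _ _ _ _ _ _ h] at hz
        exact ⟨_, Sum.inl_injective hz⟩
      · rw [ιA_neg _ _ _ _ _ _ h] at hz
        exact absurd hz Sum.inr_ne_inl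
    · rintro x' j' ⟨x, hx, hz⟩
      by_cases h : Q.part x = v ∨ Q.part x = w
      · rw [ιA_pos _ _ _ _ _ _ h] at hz
        exact absurd hz Sum.inl_ne_inr
      · rw [ιA_neg _ _ _ _ _ _ h] at hz
        exact (congrArg Prod.snd (Sum.inr_injective hz)).symm
  | bip Γ A κ hκ hA hs =>
    intro E hE C' hC' hcard
    refine ⟨∅, fun x y => ∃ x' y', x = .inl x' ∧ y = .inl y' ∧ Γ x' y', Sum.inl '' A,
      TD.bip _ _ (fun z => match z with | .inl z => κ z | .inr _ => true) ?_ ?_ ?_, ?_, ?_, ?_, ?_,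
      ?_⟩
    · rintro x y ⟨x', y', rfl, rfl, h⟩
      exact hκ _ _ h
    · rintro x y ⟨x', y', rfl, rfl, h⟩
      exact ⟨⟨x', (hA _ _ h).1, rfl⟩, ⟨y', (hA _ _ h).2, rfl⟩⟩
    · rintro x y ⟨x', y', rfl, rfl, h⟩
      exact ⟨y', x', rfl, rfl, hs _ _ h⟩
    · intro p hp
      exact absurd ((hC' p).1 hp).2 (Set.notMem_empty _)
    · intro p hp
      exact absurd hp (Set.notMem_empty _)
    · intro p hp
      exact ⟨p.1, p.2, rfl, rfl, hE p hp⟩
    · rintro z ⟨z', hz, h⟩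
      rw [← Sum.inl_injective h]
      exact hz
    · rintro x j ⟨z', hz, h⟩
      exact absurd h Sum.inl_ne_inr
  | glue J₁ J₂ Γ₁ Γ₂ A₁ A₂ a b h₁ h₂ hd hA hab i₁ i₂ =>
    intro E hE C' hC' hcard
    set E₁ := E.filter (fun p => Γ₁ p.1 p.2) with hE₁
    set E₂ := E.filter (fun p => ¬ Γ₁ p.1 p.2) with hE₂
    have hEc : E₁.card + E₂.card = E.card := Finset.card_filter_add_card_filter_not _
    have hE₁' : ∀ p ∈ E₁, Γ₁ p.1 p.2 := fun p hp => (Finset.mem_filter.1 hp).2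
    have hE₂' : ∀ p ∈ E₂, Γ₂ p.1 p.2 := fun p hp => by
      obtain ⟨h1, h2⟩ := Finset.mem_filter.1 hp
      exact (hE p h1).resolve_left h2
    set C₁ := C'.filter (fun p => p.2 ∈ J₁) with hC₁
    set C₂ := C'.filter (fun p => ¬ p.2 ∈ J₁) with hC₂
    have hCc : C₁.card + C₂.card = C'.card := Finset.card_filter_add_card_filter_not _
    have hC₁' : ∀ p, p ∈ C₁ ↔ p ∈ C ∧ p.2 ∈ J₁ := by
      intro p
      rw [hC₁, Finset.mem_filter, hC']
      constructor
      · rintro ⟨⟨h1, -⟩, h2⟩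
        exact ⟨h1, h2⟩
      · rintro ⟨h1, h2⟩
        exact ⟨⟨h1, Or.inl h2⟩, h2⟩
    have hC₂' : ∀ p, p ∈ C₂ ↔ p ∈ C ∧ p.2 ∈ J₂ := by
      intro p
      rw [hC₂, Finset.mem_filter, hC']
      constructor
      · rintro ⟨⟨h1, h3⟩, h2⟩
        exact ⟨h1, h3.resolve_left h2⟩
      · rintro ⟨h1, h2⟩
        exact ⟨⟨h1, Or.inr h2⟩, fun h => hd _ h h2⟩
    have hmemC : ∀ p ∈ C', p ∈ C₁ ∨ p ∈ C₂ := by
      intro p hp
      by_cases h : p.2 ∈ J₁
      · exact Or.inl (Finset.mem_filter.2 ⟨hp, h⟩)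
      · exact Or.inr (Finset.mem_filter.2 ⟨hp, h⟩)
    have hmemE : ∀ p ∈ E, p ∈ E₁ ∨ p ∈ E₂ := by
      intro p hp
      by_cases h : Γ₁ p.1 p.2
      · exact Or.inl (Finset.mem_filter.2 ⟨hp, h⟩)
      · exact Or.inr (Finset.mem_filter.2 ⟨hp, h⟩)
    by_cases z2 : C₂.card + E₂.card = 0
    · have e1 : C₂ = ∅ := Finset.card_eq_zero.1 (by omega)
      have e2 : E₂ = ∅ := Finset.card_eq_zero.1 (by omega)
      obtain ⟨S, Γ, A, hT, k1, k2, k3, k4, k5⟩ := i₁ E₁ hE₁' C₁ hC₁' (by omega)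
      refine ⟨S, Γ, A, hT, ?_, fun p hp => Or.inl (k2 p hp), ?_, fun z hz => Or.inl (k4 z hz),
        fun x j hx => Or.inl (k5 x j hx)⟩
      · intro p hp
        rcases hmemC p hp with h | h
        · exact k1 p h
        · rw [e1] at h
          exact absurd h (Finset.notMem_empty _)
      · intro p hp
        rcases hmemE p hp with h | h
        · exact k3 p h
        · rw [e2] at h
          exact absurd h (Finset.notMem_empty _)
    by_cases z1 : C₁.card + E₁.card = 0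
    · have e1 : C₁ = ∅ := Finset.card_eq_zero.1 (by omega)
      have e2 : E₁ = ∅ := Finset.card_eq_zero.1 (by omega)
      obtain ⟨S, Γ, A, hT, k1, k2, k3, k4, k5⟩ := i₂ E₂ hE₂' C₂ hC₂' (by omega)
      refine ⟨S, Γ, A, hT, ?_, fun p hp => Or.inr (k2 p hp), ?_, fun z hz => Or.inr (k4 z hz),
        fun x j hx => Or.inr (k5 x j hx)⟩
      · intro p hp
        rcases hmemC p hp with h | h
        · rw [e1] at h
          exact absurd h (Finset.notMem_empty _)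
        · exact k1 p h
      · intro p hp
        rcases hmemE p hp with h | h
        · rw [e2] at h
          exact absurd h (Finset.notMem_empty _)
        · exact k3 p h
    -- both sides are used
    obtain ⟨F₁, F₂, f1, f2, f3, f4, f5, f6, f7⟩ : ∃ F₁ F₂ : Finset (β.V × β.V),
        (∀ p ∈ F₁, Γ₁ p.1 p.2) ∧ (∀ p ∈ F₂, Γ₂ p.1 p.2) ∧ C₁.card + F₁.card ≤ g + 1 ∧
        C₂.card + F₂.card ≤ g + 1 ∧ (∀ p ∈ E₁, p ∈ F₁) ∧ (∀ p ∈ E₂, p ∈ F₂) ∧
        (a = b ∨ ((a, b) ∈ F₁ ∧ (a, b) ∈ F₂)) := by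
      rcases hab with h | ⟨h, h'⟩
      · exact ⟨E₁, E₂, hE₁', hE₂', by omega, by omega, fun _ h => h, fun _ h => h, Or.inl h⟩
      · refine ⟨insert (a, b) E₁, insert (a, b) E₂, ?_, ?_, ?_, ?_,
          fun _ h => Finset.mem_insert_of_mem h, fun _ h => Finset.mem_insert_of_mem h,
          Or.inr ⟨Finset.mem_insert_self _ _, Finset.mem_insert_self _ _⟩⟩
        · intro p hp
          rcases Finset.mem_insert.1 hp with rfl | hp
          · exact h
          · exact hE₁' p hp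
        · intro p hp
          rcases Finset.mem_insert.1 hp with rfl | hp
          · exact h'
          · exact hE₂' p hp
        · have := Finset.card_insert_le (a, b) E₁
          omega
        · have := Finset.card_insert_le (a, b) E₂
          omega
    obtain ⟨S, Γ, A, hT, k1, k2, k3, k4, k5⟩ := i₁ F₁ f1 C₁ hC₁' f3
    obtain ⟨S', Γ', A', hT', k1', k2', k3', k4', k5'⟩ := i₂ F₂ f2 C₂ hC₂' f4
    refine ⟨_, _, _, TD.glue _ _ _ _ _ _ (.inl a) (.inl b) hT hT' ?_ ?_ ?_, ?_, ?_, ?_, ?_, ?_⟩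
    · intro p hp hp'
      exact hd _ (k2 p hp) (k2' p hp')
    · rintro (z | ⟨x, j⟩) hx hx'
      · rcases hA z (k4 z hx) (k4' z hx') with rfl | rfl
        · exact Or.inl rfl
        · exact Or.inr rfl
      · exact absurd (k5' x j hx') (hd _ (k5 x j hx))
    · rcases f7 with rfl | ⟨h, h'⟩
      · exact Or.inl rfl
      · exact Or.inr ⟨k3 _ h, k3' _ h'⟩
    · intro p hp
      rcases hmemC p hp with h | h
      · exact Or.inl (k1 p h)
      · exact Or.inr (k1' p h)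
    · rintro p (hp | hp)
      · exact Or.inl (k2 p hp)
      · exact Or.inr (k2' p hp)
    · intro p hp
      rcases hmemE p hp with h | h
      · exact Or.inl (k3 p (f5 p h))
      · exact Or.inr (k3' p (f6 p h))
    · rintro z (hz | hz)
      · exact Or.inl (k4 z hz)
      · exact Or.inr (k4' z hz)
    · rintro x j (hx | hx)
      · exact Or.inl (k5 x j hx)
      · exact Or.inr (k5' x j hx)

/-- The amalgam is sparse. -/
theorem Am_spa (P : SimpleGraph Y) (hvw : P.Adj v w) (g : ℕ) (hQ : Spa Q P (g + 1))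
    (hβ : Spa β (Ge Q v w hvw.ne) g) : Spa (Am Q v w β) P (g + 1) := by
  classical
  intro C hC
  by_cases hJ : (C.image Prod.snd).card ≤ g
  · obtain ⟨J, Γ, A, hT, hJ'⟩ := hβ (C.image Prod.snd) hJ
    obtain ⟨S, Γ', A', hT', k1, -⟩ := Am_claim Q v w β P hvw g hQ C hT ∅
      (fun p hp => absurd hp (Finset.notMem_empty _)) C
      (fun p => ⟨fun h => ⟨h, hJ' _ (Finset.mem_image_of_mem _ h)⟩, fun h => h.1⟩)
      (by rw [Finset.card_empty]; exact hC)
    exact ⟨S, Γ', A', hT', k1⟩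
  · -- all bodies are in different copies
    have hcard : (C.image Prod.snd).card = C.card := by
      have : (C.image Prod.snd).card ≤ C.card := Finset.card_image_le
      have hC' : C.card ≤ g + 1 := hC
      omega
    have hinj : ∀ p ∈ C, ∀ p' ∈ C, p.2 = p'.2 → p = p' := by
      intro p hp p' hp' h
      exact Finset.card_image_iff.1 hcard (Finset.mem_coe.2 hp) (Finset.mem_coe.2 hp') h
    have hv : ∀ m, Q.part (Q.δ m v) = v ∨ Q.part (Q.δ m v) = w := fun m => Or.inl (Q.hpart m v)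
    have hw : ∀ m, Q.part (Q.δ m w) = v ∨ Q.part (Q.δ m w) = w := fun m => Or.inr (Q.hpart m w)
    set X : (Am Q v w β).M → (Am Q v w β).V := fun p => (Am Q v w β).δ p v with hX
    set X' : (Am Q v w β).M → (Am Q v w β).V := fun p => (Am Q v w β).δ p w with hX'
    have hpv : ∀ p, (Am Q v w β).part (X p) = v := fun p => (Am Q v w β).hpart p v
    have hpw : ∀ p, (Am Q v w β).part (X' p) = w := fun p => (Am Q v w β).hpart p w
    set Γ₀ : (Am Q v w β).V → (Am Q v w β).V → Prop := fun x y =>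
      ∃ p ∈ C, (x = X p ∧ y = X' p) ∨ (x = X' p ∧ y = X p) with hΓ₀
    set A₀ : Set (Am Q v w β).V := {x | ∃ p ∈ C, x = X p ∨ x = X' p} with hA₀
    have h0 : TD (Am Q v w β) P ∅ Γ₀ A₀ := by
      refine TD.bip _ _ (fun x => decide ((Am Q v w β).part x = v)) ?_ ?_ ?_
      · rintro x y ⟨p, hp, ⟨rfl, rfl⟩ | ⟨rfl, rfl⟩⟩
        · simp only [hpv, hpw]
          simp [hvw.ne']
        · simp only [hpv, hpw]
          simp [hvw.ne']
      · rintro x y ⟨p, hp, ⟨rfl, rfl⟩ | ⟨rfl, rfl⟩⟩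
        · exact ⟨⟨p, hp, Or.inl rfl⟩, ⟨p, hp, Or.inr rfl⟩⟩
        · exact ⟨⟨p, hp, Or.inr rfl⟩, ⟨p, hp, Or.inl rfl⟩⟩
      · rintro x y ⟨p, hp, h | h⟩
        · exact ⟨p, hp, Or.inr ⟨h.2, h.1⟩⟩
        · exact ⟨p, hp, Or.inl ⟨h.2, h.1⟩⟩
    -- vertices of `β`
    have hX1 : ∀ p, X p = .inl (β.δ p.2 ⟨Q.δ p.1 v, hv p.1⟩) := fun p =>
      ιA_pos Q v w β p.2 (Q.δ p.1 v) (hv p.1)
    have hX2 : ∀ p, X' p = .inl (β.δ p.2 ⟨Q.δ p.1 w, hw p.1⟩) := fun p =>
      ιA_pos Q v w β p.2 (Q.δ p.1 w) (hw p.1)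
    have hpriv : ∀ p y, y ≠ v → y ≠ w → ∃ x, (Am Q v w β).δ p y = .inr (x, p.2) := by
      intro p y h1 h2
      have h : ¬ (Q.part (Q.δ p.1 y) = v ∨ Q.part (Q.δ p.1 y) = w) := by
        rw [Q.hpart]
        rintro (h | h)
        · exact h1 h
        · exact h2 h
      exact ⟨_, ιA_neg Q v w β p.2 (Q.δ p.1 y) h⟩
    have key : ∀ D : Finset (Am Q v w β).M, D ⊆ C → ∃ Γ A, TD (Am Q v w β) P (↑D) Γ A ∧
        (∀ x y, Γ₀ x y → Γ x y) ∧ ∀ x ∈ A, x ∈ A₀ ∨ ∃ p ∈ D, ∃ y, x = (Am Q v w β).δ p y := by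
      intro D
      induction D using Finset.induction_on with
      | empty =>
        intro _
        refine ⟨Γ₀, A₀, ?_, fun _ _ h => h, fun x hx => Or.inl hx⟩
        rw [Finset.coe_empty]
        exact h0
      | insert p D hpD ih =>
        intro hD
        obtain ⟨Γ, A, hT, hΓ, hA⟩ := ih (fun q hq => hD (Finset.mem_insert_of_mem hq))
        have hpC : p ∈ C := hD (Finset.mem_insert_self _ _)
        have hΓp : Γ (X p) (X' p) := hΓ _ _ ⟨p, hpC, Or.inl ⟨rfl, rfl⟩⟩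
        have hgl := TD.glue _ _ _ _ _ _ (X p) (X' p) hT (TD.body (Q := Am Q v w β) (P := P) p)
          (by
            rintro q hq hq'
            rw [Set.mem_singleton_iff] at hq'
            subst hq'
            exact hpD (Finset.mem_coe.1 hq))
          (by
            rintro x hx ⟨y, rfl⟩
            by_cases h1 : y = v
            · left
              rw [h1]
            by_cases h2 : y = w
            · right
              rw [h2]
            exfalso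
            obtain ⟨x', hx'⟩ := hpriv p y h1 h2
            rcases hA _ hx with ⟨q, hq, h | h⟩ | ⟨q, hq, z, h⟩
            · rw [hx', hX1] at h
              exact absurd h Sum.inr_ne_inl
            · rw [hx', hX2] at h
              exact absurd h Sum.inr_ne_inl
            · have hqC : q ∈ C := hD (Finset.mem_insert_of_mem hq)
              have hzy : z = y := by
                have e1 := (Am Q v w β).hpart p y
                rw [h, (Am Q v w β).hpart q z] at e1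
                exact e1
              subst hzy
              obtain ⟨x'', hx''⟩ := hpriv q z h1 h2
              rw [hx', hx''] at h
              have e2 := congrArg Prod.snd (Sum.inr_injective h)
              have e3 := hinj p hpC q hqC e2
              subst e3
              exact hpD hq)
          (Or.inr ⟨hΓp, ⟨v, w, rfl, rfl, hvw⟩⟩)
        have hset : (↑D ∪ {p} : Set (Am Q v w β).M) = ↑(insert p D) := by
          rw [Finset.coe_insert, Set.insert_eq, Set.union_comm]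
        rw [hset] at hgl
        refine ⟨_, _, hgl, fun x y h => Or.inl (hΓ x y h), ?_⟩
        rintro x (hx | ⟨y, rfl⟩)
        · rcases hA x hx with h | ⟨q, hq, y, h⟩
          · exact Or.inl h
          · exact Or.inr ⟨q, Finset.mem_insert_of_mem hq, y, h⟩
        · exact Or.inr ⟨p, Finset.mem_insert_self _ _, y, rfl⟩
    obtain ⟨Γ, A, hT, -, -⟩ := key C (Finset.Subset.refl _)
    exact ⟨_, Γ, A, hT, fun m hm => Finset.mem_coe.2 hm⟩

end amalgam

/-! ## The theorem -/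

/-- A single body. -/
def one (Y : Type) [Finite Y] : Sys Y where
  V := Y
  M := Unit
  fV := inferInstance
  fM := inferInstance
  δ := fun _ y => y
  part := id
  hpart := fun _ _ => rfl

/-- The TW system. -/
def tw (Y : Type) [Finite Y] (M : ℕ) : Sys Y where
  V := Σ v : Y, ({u : Y // u ≠ v} → Fin M)
  M := Y → Fin M
  fV := inferInstance
  fM := inferInstance
  δ := fun a y => ⟨y, fun u => a u.1⟩
  part := fun x => x.1
  hpart := fun _ _ => rfl

theorem tw_lin (Y : Type) [Finite Y] (M : ℕ) : (tw Y M).Lin := by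
  intro a a' y z hne h1 h2
  by_contra hyz
  apply hne
  funext u
  have e1 : ∀ u, u ≠ y → a u = a' u := by
    intro u hu
    have h : (⟨y, fun u => a u.1⟩ : Σ v : Y, ({u : Y // u ≠ v} → Fin M)) =
      ⟨y, fun u => a' u.1⟩ := h1
    have h' := eq_of_heq (Sigma.mk.inj_iff.1 h).2
    exact congrFun h' ⟨u, hu⟩
  have e2 : ∀ u, u ≠ z → a u = a' u := by
    intro u hu
    have h : (⟨z, fun u => a u.1⟩ : Σ v : Y, ({u : Y // u ≠ v} → Fin M)) =
      ⟨z, fun u => a' u.1⟩ := h2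
    have h' := eq_of_heq (Sigma.mk.inj_iff.1 h).2
    exact congrFun h' ⟨u, hu⟩
  by_cases hu : u = y
  · exact e2 u (fun h => hyz (hu.symm.trans h))
  · exact e1 u hu

theorem tw_rob (Y : Type) [Fintype Y] (P : SimpleGraph Y) (n : ℕ) :
    Rob (tw Y (MP3240Tw1.twM (Fintype.card Y) n)) P n := by
  classical
  intro R hR
  rcases MP3240Tw1.tw1 (M := MP3240Tw1.twM (Fintype.card Y) n) P n le_rfl R with
    ⟨a, ha⟩ | ⟨v, w, hvw, f, g, hf, hg, hfg, hfr⟩
  · refine ⟨a, ?_⟩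
    rintro _ _ ⟨t, t', rfl, rfl, h⟩
    exact ha t t' h
  · exfalso
    refine hR ⟨fun i => ⟨v, f i⟩, fun j => ⟨w, g j⟩, ?_, ?_, ?_⟩
    · intro i j h
      exact hf (eq_of_heq (Sigma.mk.inj_iff.1 h).2)
    · intro i j h
      exact hg (eq_of_heq (Sigma.mk.inj_iff.1 h).2)
    · intro i j
      obtain ⟨a, ha1, ha2⟩ : ∃ a : Y → Fin (MP3240Tw1.twM (Fintype.card Y) n),
          (∀ u : {u : Y // u ≠ v}, a u.1 = f i u) ∧ ∀ u : {u : Y // u ≠ w}, a u.1 = g j u := by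
        refine ⟨fun u => if h : u = v then g j ⟨v, fun h' => hvw.ne h'⟩ else f i ⟨u, h⟩, ?_, ?_⟩
        · intro u
          exact dif_neg u.2
        · rintro ⟨u, hu⟩
          by_cases h : u = v
          · subst h
            exact dif_pos rfl
          · exact (dif_neg h).trans (hfg i j u h hu)
      refine ⟨⟨a, v, w, ?_, ?_, hvw⟩, hfr i j⟩
      · change (⟨v, f i⟩ : Σ v : Y, ({u : Y // u ≠ v} → Fin _)) = ⟨v, fun u => a u.1⟩
        rw [Sigma.mk.injEq]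
        exact ⟨rfl, heq_of_eq (funext fun u => (ha1 u).symm)⟩
      · change (⟨w, g j⟩ : Σ v : Y, ({u : Y // u ≠ v} → Fin _)) = ⟨w, fun u => a u.1⟩
        rw [Sigma.mk.injEq]
        exact ⟨rfl, heq_of_eq (funext fun u => (ha2 u).symm)⟩

/-- Finite sparse systems exist. -/
theorem ssl (g : ℕ) : ∀ (n : ℕ) (Y : Type) [Finite Y] (P : SimpleGraph Y),
    ∃ Q : Sys Y, Q.Lin ∧ Spa Q P g ∧ Rob Q P n := by
  classical
  induction g with
  | zero =>
    intro n Y _ P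
    have := Fintype.ofFinite Y
    refine ⟨tw Y (MP3240Tw1.twM (Fintype.card Y) n), tw_lin _ _, ?_, tw_rob Y P n⟩
    intro C hC
    refine ⟨∅, fun _ _ => False, ∅, TD.bip _ _ (fun _ => true) (fun _ _ h => h.elim)
      (fun _ _ h => h.elim) (fun _ _ h => h.elim), ?_⟩
    intro m hm
    rw [Finset.card_eq_zero.1 (Nat.le_zero.1 hC)] at hm
    exact absurd hm (Finset.notMem_empty _)
  | succ g ih =>
    intro n Y _ P
    have := Fintype.ofFinite Y
    have key : ∀ E : Finset (Y × Y), ∃ Q : Sys Y, Q.Lin ∧ Spa Q P (g + 1) ∧ RobE Q P n E := by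
      intro E
      induction E using Finset.induction_on with
      | empty =>
        refine ⟨one Y, ?_, ?_, ?_⟩
        · intro m m' y z hne
          exact absurd (Subsingleton.elim (α := Unit) m m') hne
        · intro C _
          refine ⟨_, _, _, TD.body (), ?_⟩
          intro m _
          exact Set.mem_singleton_iff.2 (Subsingleton.elim (α := Unit) _ _)
        · intro R _
          exact ⟨(), fun p hp => absurd hp (Finset.notMem_empty _)⟩
      | insert e E he ihE =>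
        obtain ⟨Q, q1, q2, q3⟩ := ihE
        obtain ⟨v, w⟩ := e
        by_cases hvw : P.Adj v w
        · have := Q.fV
          obtain ⟨β, b1, b2, b3⟩ := ih n (Ye Q v w) (Ge Q v w hvw.ne)
          exact ⟨Am Q v w β, Am_lin Q v w β q1 b1, Am_spa Q v w β P hvw g q2 b2,
            Am_rob Q v w β P hvw n E q3 b3⟩
        · refine ⟨Q, q1, q2, ?_⟩
          intro R hR
          obtain ⟨m, hm⟩ := q3 R hR
          refine ⟨m, fun p hp hP => ?_⟩
          rcases Finset.mem_insert.1 hp with rfl | hp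
          · exact absurd hP hvw
          · exact hm p hp hP
    obtain ⟨Q, q1, q2, q3⟩ := key Finset.univ
    refine ⟨Q, q1, q2, ?_⟩
    intro R hR
    obtain ⟨m, hm⟩ := q3 R hR
    refine ⟨m, ?_⟩
    rintro _ _ ⟨t, t', rfl, rfl, h⟩
    exact (hm (t, t') (Finset.mem_univ _) h).1

end MP3240S86
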